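import Pool.Agent.TH542.Kam.Bridge

/-!
# Kameko's squaring operation is not a monomorphism for any `d ≥ 5`

The definitions are in `Pool/Agent/TH542/Kam/Stmt.lean`.
-/

set_option autoImplicit false

namespace Pool.Agent.Results.MP_ca28bb_gt.FailsFromFive

open Pool.Agent.TH542.KamStmt

/-- For every `d ≥ 5` and every `s ≥ d`, Kameko's squaring operation
`𝔽₂ ⊗_{GL_d} PH_n → 𝔽₂ ⊗_{GL_d} PH_{d+2n}` is not injective in the positive degree
`n = 2^s - 1`. The class killed is the one of `a_5^(2^s-1)`. -/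
theorem result (d : ℕ) (hd : 5 ≤ d) (s : ℕ) (hs : d ≤ s) :
    ¬ KamekoInjective d (2 ^ s - 1) :=
  fun h => Pool.Agent.TH542.Kam.not_injective_of_five_le hd s hs (injective_of_kamekoInjective h)

end Pool.Agent.Results.MP_ca28bb_gt.FailsFromFive
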