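import Pool.Agent.TH542.Kam.Bridge

/-!
# The statement `monomorphism in all degrees n ≥ 0 iff d ≤ 4` is false

The definitions are in `Pool/Agent/TH542/Kam/Stmt.lean`.
-/

set_option autoImplicit false

namespace Pool.Agent.Results.MP_ca28bb_gt.LiteralNegation

open Pool.Agent.TH542.KamStmt

/-- It is not true that, for positive `d`, Kameko's squaring operation is injective in all degrees
`n ≥ 0` if and only if `d ≤ 4`: it fails to be injective for `d = 4`, `n = 0`. -/
theorem result : ¬ ∀ d : ℕ, 1 ≤ d → ((∀ n : ℕ, KamekoInjective d n) ↔ d ≤ 4) :=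
  fun h => Pool.Agent.TH542.Kam.not_injective_zero (le_refl 4)
    (injective_of_kamekoInjective ((h 4 (by norm_num)).2 (le_refl 4) 0))

end Pool.Agent.Results.MP_ca28bb_gt.LiteralNegation
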